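import Pool.Agent.Work.MP_db9399_cg.Interface
import Pool.Agent.Work.MP_db9399_all_helper34.VIZ
import Pool.Agent.Work.MP_db9399_tk_helper59.SmoothP

/-!
# MP_db9399, SPW, block TOK (helper59): an edge colouring whose tokens are smooth
-/

set_option autoImplicit false

namespace Pool.Agent.Work.MP_db9399_cg.helper59

open Finset Classical
open Pool.Agent.Work.MP_db9399_all (nb)
open Pool.Agent.Work.MP_db9399_tk

universe u

section

variable {V : Type u} [Fintype V]

theorem mem_nb' {G : SimpleGraph V} {v w : V} : w ∈ nb G v ↔ G.Adj v w := by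
  simp [nb]

/-- numbers -/
theorem num (a : ℝ) (ha : 0 < a) (ha1 : a ≤ 1 / 100) : ∃ d0 : ℕ, ∀ d : ℕ, d0 ≤ d →
    100 ≤ (d : ℝ) ∧ 100 ≤ (d : ℝ) ^ (a / 20) ∧ 3 * Real.log d ≤ (d : ℝ) ^ (a / 20) ∧
    160 * (d : ℝ) ^ (a / 10) ≤ √(d : ℝ) := by
  have t1 : Filter.Tendsto (fun d : ℕ => (d : ℝ)) Filter.atTop Filter.atTop :=
    tendsto_natCast_atTop_atTop
  have h1 := t1.eventually_ge_atTop 100
  have h2 := ((tendsto_rpow_atTop (by positivity : 0 < a / 20)).comp t1).eventually_ge_atTop 100
  have h3 : ∀ᶠ d : ℕ in Filter.atTop, 3 * Real.log d ≤ (d : ℝ) ^ (a / 20) := by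
    have h := (isLittleO_log_rpow_atTop (by positivity : 0 < a / 20)).bound
      (by norm_num : (0 : ℝ) < 1 / 3)
    filter_upwards [t1.eventually h, h1] with d hd hd1
    have h4 : 0 ≤ Real.log d := Real.log_nonneg (by linarith)
    have h5 : (0 : ℝ) ≤ (d : ℝ) ^ (a / 20) := by positivity
    rw [Real.norm_of_nonneg h4, Real.norm_of_nonneg h5] at hd
    linarith
  have h4 := ((tendsto_rpow_atTop (by linarith : (0 : ℝ) < 1 / 2 - a / 10)).comp
    t1).eventually_ge_atTop 160
  obtain ⟨d0, hd0⟩ := Filter.eventually_atTop.1 (h1.and (h2.and (h3.and h4)))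
  refine ⟨d0, fun d hd => ?_⟩
  obtain ⟨k1, k2, k3, k4⟩ := hd0 d hd
  refine ⟨k1, k2, k3, ?_⟩
  have hd' : (0 : ℝ) < d := by linarith
  have k5 : √(d : ℝ) = (d : ℝ) ^ (1 / 2 - a / 10) * (d : ℝ) ^ (a / 10) := by
    rw [← Real.rpow_add hd', Real.sqrt_eq_rpow]
    congr 1
    ring
  rw [k5]
  exact mul_le_mul_of_nonneg_right k4 (by positivity)

end

theorem stmt_TOK : Stmt_TOK.{u} := by
  intro a ε ha ha1 hε
  obtain ⟨d0, hnum⟩ := num a ha ha1
  refine ⟨ε ^ 2 / 600000, d0, by positivity, ?_⟩
  intro V _ G S d P r I _ k hd hreg hS hP hrlo hrd hlo hhi hT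
  obtain ⟨hd1, hy, hly, hsq⟩ := hnum d hd
  have hd0 : (0 : ℝ) < d := by linarith
  have hrd' : (r : ℝ) ≤ d / 16 := by
    refine le_trans hrd ?_
    rw [Real.rpow_sub hd0, Real.rpow_one]
    apply div_le_div_of_nonneg_left hd0.le (by norm_num)
    have h1 : (d : ℝ) ^ (a / 20) ≤ (d : ℝ) ^ (a / 3) :=
      Real.rpow_le_rpow_of_exponent_le (by linarith) (by linarith)
    linarith
  have hPr : (P : ℝ) + r = d + 1 := by exact_mod_cast hP
  have hr1' : (1 : ℝ) ≤ r :=
    le_trans (Real.one_le_rpow (by linarith) (by linarith)) hrlo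
  have hr1 : 1 ≤ r := by exact_mod_cast hr1'
  obtain ⟨y, hydef⟩ : ∃ y, y = (d : ℝ) ^ (a / 20) := ⟨_, rfl⟩
  rw [← hydef] at hy hly
  have hy2 : (d : ℝ) ^ (a / 10) = y ^ 2 := by
    rw [hydef, ← Real.rpow_natCast, ← Real.rpow_mul hd0.le]
    congr 1
    push_cast
    ring
  rw [hy2] at hsq
  have hsxy : sx d a = Real.exp y := by
    unfold sx
    rw [hydef]
  have hspy : sp d a = y ^ 2 := hy2
  have hsx : (d : ℝ) ^ 3 ≤ sx d a := by
    have h2 : (d : ℝ) ^ 3 = Real.exp (3 * Real.log d) := by
      rw [mul_comm, Real.exp_mul, Real.exp_log hd0]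
      norm_cast
    rw [h2, hsxy]
    exact Real.exp_le_exp.2 hly
  have hPd : (P : ℝ) ≤ d := by linarith
  have hP2 : (d : ℝ) / 2 ≤ P := by linarith
  have hP0 : 0 < P := by
    have : (0 : ℝ) < P := by linarith
    exact_mod_cast this
  -- the graph to be coloured
  obtain ⟨H, hHadj⟩ : ∃ H : SimpleGraph V, ∀ v w, H.Adj v w ↔ G.Adj v w ∧ ¬ S.Adj v w :=
    ⟨G \ S, fun v w => by simp [SimpleGraph.sdiff_adj]⟩
  have hdeg : ∀ v, (nb H v).card + (nb S v).card = d := by
    intro v
    rw [← hreg v]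
    have h1 : nb H v = nb G v \ nb S v := by
      ext w
      simp only [mem_nb', hHadj, Finset.mem_sdiff]
    rw [h1]
    apply Finset.card_sdiff_add_card_eq_card
    intro w hw
    exact mem_nb'.2 (hS (mem_nb'.1 hw))
  obtain ⟨t, ht1, ht2, ht3⟩ := Pool.Agent.Work.MP_db9399_all.stmt_VIZ H (P - 1) (fun v => by
    have := hdeg v
    have := hlo v
    omega)
  set φ : V → V → Fin P := fun v w => ⟨t v w, by have := ht2 v w; omega⟩ with hφ
  have hPEC : PEC H φ := by
    refine ⟨fun v w => ?_, fun v w w' h1 h2 h3 => ?_⟩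
    · simp only [hφ, ht1 v w]
    · have h4 : t v w = t v w' := by
        have := congrArg Fin.val h3
        simpa [hφ] using this
      exact ht3 v (by simpa [nb] using h1) (by simpa [nb] using h2) h4
  have hfil : ∀ v, (univ.filter (fun w => H.Adj v w)) = nb H v := fun v => by
    ext w
    simp [nb]
  have hmis : ∀ (ψ : V → V → Fin P), PEC H ψ → ∀ v, (mis H ψ v).card = (nb S v).card + 1 - r := by
    intro ψ hψ v
    have h1 := card_mis H ψ hψ v
    rw [hfil, Fintype.card_fin] at h1
    have := hdeg v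
    have := hlo v
    omega
  have hmis2 : ∀ (ψ : V → V → Fin P), PEC H ψ → ∀ v, (mis H ψ v).card ≤ 2 := by
    intro ψ hψ v
    rw [hmis ψ hψ v]
    have := hhi v
    omega
  -- parameters
  have hsx1 : 1 ≤ sx d a := by
    rw [hsxy]
    exact Real.one_le_exp (by linarith)
  have hrsx : (r : ℝ) + 1 ≤ sx d a := by
    have h1 : (d : ℝ) ≤ (d : ℝ) ^ 3 := by nlinarith [mul_pos hd0 hd0]
    linarith
  set L : ℕ := ⌈sx d a⌉₊ with hL
  have hL0 : sx d a ≤ L := Nat.le_ceil _
  have hL2 : (L : ℝ) ≤ 2 * sx d a := by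
    have := Nat.ceil_lt_add_one (a := sx d a) (by linarith)
    linarith
  have hrL : r + 1 ≤ L := by
    have : ((r + 1 : ℕ) : ℝ) ≤ L := by push_cast; linarith
    exact_mod_cast this
  obtain ⟨φ', hφ', hA, hB⟩ := smoothP H φ hPEC k (fun (y : V) x => if S.Adj y x then (1 : ℝ) else 0)
    2 L L (3 * y) (by rw [Fintype.card_fin]; exact hP0)
    (fun _ v _ => hmis2 φ hPEC v) (fun _ v _ => hmis2 φ hPEC v)
    (fun i => by
      have := hT.supp i
      have h2 : (((univ.filter fun x => k i x ≠ 0).card : ℕ) : ℝ) ≤ (L : ℝ) := le_trans this hL0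
      exact_mod_cast h2)
    (fun y => by
      have h1 : (univ.filter (fun x => (if S.Adj y x then (1 : ℝ) else 0) ≠ 0)) = nb S y := by
        ext x
        simp [nb]
      rw [h1]
      exact le_trans (hhi y) hrL)
    (fun x => by
      have := hT.mult x
      have h2 : (((univ.filter fun i => k i x ≠ 0).card : ℕ) : ℝ) ≤ (L : ℝ) := le_trans this hL0
      exact_mod_cast h2)
    (fun x => by
      have h1 : (univ.filter (fun y => (if S.Adj y x then (1 : ℝ) else 0) ≠ 0)) = nb S x := by
        ext y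
        simp [nb, SimpleGraph.adj_comm]
      rw [h1]
      exact le_trans (hhi x) hrL)
    (fun j v => by split_ifs <;> norm_num)
    (fun j v => by split_ifs <;> norm_num)
    (by omega) (by linarith)
    (by
      rw [Fintype.card_fin]
      have h3 : Real.exp (3 * y) = sx d a ^ 3 := by
        rw [hsxy, mul_comm, Real.exp_mul]
        norm_cast
      rw [h3]
      have h4 : (2 * (L : ℝ) + 1) ≤ 5 * sx d a := by linarith
      have h5 : 320 * ((P : ℝ) + 1) ≤ sx d a := by nlinarith [mul_pos hd0 hd0]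
      have h6 : 32 * ((L : ℝ) * (2 : ℕ) + 1) * L * (P + 1) ≤
          32 * (5 * sx d a) * (2 * sx d a) * (P + 1) := by
        apply mul_le_mul_of_nonneg_right _ (by positivity)
        apply mul_le_mul _ hL2 (by positivity) (by positivity)
        push_cast
        linarith
      refine le_trans h6 ?_
      have h7 : 0 ≤ sx d a ^ 2 := sq_nonneg _
      nlinarith [mul_le_mul_of_nonneg_left h5 h7])
  -- the matchings
  set N : Fin P → V → V := fun b v =>
    if h : ∃ w, H.Adj v w ∧ φ' v w = b then Classical.choose h else v with hN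
  have hNs : ∀ b v w, H.Adj v w → φ' v w = b → N b v = w := by
    intro b v w h1 h2
    have h : ∃ w, H.Adj v w ∧ φ' v w = b := ⟨w, h1, h2⟩
    simp only [hN]
    rw [dif_pos h]
    have h3 := Classical.choose_spec h
    exact hφ'.inj v _ w h3.1 h1 (h3.2.trans h2.symm)
  have hNn : ∀ b v, N b v ≠ v → H.Adj v (N b v) ∧ φ' v (N b v) = b := by
    intro b v h
    by_cases h1 : ∃ w, H.Adj v w ∧ φ' v w = b
    · obtain ⟨w, h2, h3⟩ := h1
      rw [hNs b v w h2 h3]
      exact ⟨h2, h3⟩
    · exact absurd (by simp only [hN]; rw [dif_neg h1]) h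
  have hNe : ∀ b v, N b v = v ↔ b ∈ mis H φ' v := by
    intro b v
    rw [mem_mis]
    constructor
    · intro h w h1 h2
      rw [hNs b v w h1 h2] at h
      exact h1.ne h.symm
    · intro h
      by_contra h1
      obtain ⟨h2, h3⟩ := hNn b v h1
      exact h _ h2 h3
  refine ⟨N, ⟨hS, hP, hrlo, hrd, hreg, hlo, hhi, ?_, ?_, ?_, ?_, ?_⟩, ?_⟩
  · intro b v
    by_cases h : N b v = v
    · rw [h, h]
    · obtain ⟨h2, h3⟩ := hNn b v h
      exact hNs b _ v h2.symm (by rw [hφ'.sym, h3])
  · intro b v h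
    exact (hHadj _ _).1 (hNn b v h).1
  · intro b b' v h h'
    have h1 := hNn b v h
    have h2 := hNn b' v (h' ▸ h)
    rw [← h1.2, ← h2.2, h']
  · intro v w h1 h2
    exact ⟨φ' v w, hNs _ v w ((hHadj v w).2 ⟨h1, h2⟩) rfl⟩
  · intro b v
    have h1 := hB v b
    have h2 : wt H φ' (fun x => if S.Adj v x then (1 : ℝ) else 0) b =
        (((nb S v).filter fun w => N b w = w).card : ℝ) := by
      unfold wt
      rw [Finset.card_filter, Nat.cast_sum]
      unfold nb
      rw [Finset.sum_filter]
      apply Finset.sum_congr rfl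
      intro x _
      simp only [hNe]
      split_ifs <;> simp
    rw [← h2]
    refine le_trans h1 ?_
    rw [Fintype.card_fin]
    have h3 : ∑ x, (if S.Adj v x then (1 : ℝ) else 0) * ((mis H φ x).card : ℝ) ≤ 2 * (r + 1) := by
      calc ∑ x, (if S.Adj v x then (1 : ℝ) else 0) * ((mis H φ x).card : ℝ)
          ≤ ∑ x, (if S.Adj v x then (1 : ℝ) else 0) * 2 := by
            apply Finset.sum_le_sum
            intro x _
            apply mul_le_mul_of_nonneg_left
            · exact_mod_cast hmis2 φ hPEC x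
            · split_ifs <;> norm_num
        _ = ((nb S v).card : ℝ) * 2 := by
            rw [← Finset.sum_mul]
            congr 1
            unfold nb
            rw [Finset.card_filter, Nat.cast_sum]
            apply Finset.sum_congr rfl
            intro x _
            split_ifs <;> simp
        _ ≤ 2 * (r + 1) := by
            have : ((nb S v).card : ℝ) ≤ r + 1 := by exact_mod_cast hhi v
            linarith
    have hP0' : (0 : ℝ) < P := by exact_mod_cast hP0
    have h4 : 4 * (∑ x, (if S.Adj v x then (1 : ℝ) else 0) * ((mis H φ x).card : ℝ)) / P ≤ 8 := by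
      rw [div_le_iff₀ hP0']
      linarith
    rw [hspy]
    nlinarith
  · intro i
    have h1 := hA i
    rw [Fintype.card_fin] at h1
    have hW : ∑ x, k i x * ((mis H φ x).card : ℝ) =
        ∑ x, k i x * (((nb S x).card + 1 - r : ℕ) : ℝ) := by
      apply Finset.sum_congr rfl
      intro x _
      rw [hmis φ hPEC x]
    rw [hW] at h1
    set W := ∑ x, k i x * (((nb S x).card + 1 - r : ℕ) : ℝ) with hWdef
    have hwt : ∀ b, wt H φ' (k i) b = ∑ x ∈ univ.filter (fun x => N b x = x), k i x := by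
      intro b
      unfold wt
      rw [Finset.sum_filter]
      apply Finset.sum_congr rfl
      intro x _
      by_cases h : b ∈ mis H φ' x
      · rw [if_pos h, if_pos ((hNe b x).2 h)]
      · rw [if_neg h, if_neg (fun h' => h ((hNe b x).1 h'))]
    have hP0' : (0 : ℝ) < P := by exact_mod_cast hP0
    have h2 : ∑ b, |∑ x ∈ univ.filter (fun x => N b x = x), k i x| ≤
        ∑ b, |wt H φ' (k i) b - W / P| + |W| := by
      calc ∑ b, |∑ x ∈ univ.filter (fun x => N b x = x), k i x|
          ≤ ∑ b : Fin P, (|wt H φ' (k i) b - W / P| + |W| / P) := by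
            apply Finset.sum_le_sum
            intro b _
            rw [← hwt b]
            have h3 : |W / P| = |W| / P := by rw [abs_div, abs_of_pos hP0']
            have h4 := abs_add_le (wt H φ' (k i) b - W / P) (W / P)
            rw [sub_add_cancel, h3] at h4
            exact h4
        _ = ∑ b, |wt H φ' (k i) b - W / P| + |W| := by
            rw [Finset.sum_add_distrib]
            congr 1
            simp only [Finset.sum_const, Finset.card_univ, Fintype.card_fin, nsmul_eq_mul]
            field_simp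
    refine le_trans h2 ?_
    rw [add_comm]
    apply add_le_add_right
    refine le_trans h1 ?_
    -- the root
    have h5 : ∑ v, k i v ^ 2 * ((mis H φ v).card : ℝ) ≤ 6 * (ε ^ 2 / 600000) / d := by
      calc ∑ v, k i v ^ 2 * ((mis H φ v).card : ℝ)
          ≤ ∑ v, (ε ^ 2 / 600000 / d) * 2 * |k i v| := by
            apply Finset.sum_le_sum
            intro v _
            have h6 : ((mis H φ v).card : ℝ) ≤ 2 := by exact_mod_cast hmis2 φ hPEC v
            have h7 := hT.sup i v
            have h8 : k i v ^ 2 ≤ (ε ^ 2 / 600000 / d) * |k i v| := by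
              rw [← sq_abs, sq]
              exact mul_le_mul_of_nonneg_right h7 (abs_nonneg _)
            have h9 : 0 ≤ k i v ^ 2 := sq_nonneg _
            calc k i v ^ 2 * ((mis H φ v).card : ℝ) ≤ k i v ^ 2 * 2 :=
                  mul_le_mul_of_nonneg_left h6 h9
              _ ≤ (ε ^ 2 / 600000 / d) * |k i v| * 2 := by linarith
              _ = _ := by ring
        _ = (ε ^ 2 / 600000 / d) * 2 * ∑ v, |k i v| := by rw [Finset.mul_sum]
        _ ≤ (ε ^ 2 / 600000 / d) * 2 * 3 := by
            apply mul_le_mul_of_nonneg_left (hT.l1 i) (by positivity)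
        _ = 6 * (ε ^ 2 / 600000) / d := by ring
    have h6 : √(∑ v, k i v ^ 2 * ((mis H φ v).card : ℝ)) ≤ ε / 310 / √(d : ℝ) := by
      rw [Real.sqrt_le_left (by positivity), div_pow, Real.sq_sqrt hd0.le]
      refine le_trans h5 ?_
      apply div_le_div_of_nonneg_right _ hd0.le
      nlinarith [sq_nonneg ε]
    have hsd : 0 < √(d : ℝ) := Real.sqrt_pos.2 hd0
    have h7 : (Nat.log 2 P : ℝ) ≤ 2 * Real.log d := by
      have h8 : 2 ^ Nat.log 2 P ≤ P := Nat.pow_log_le_self 2 (by omega)
      have h9 : ((2 : ℝ) ^ Nat.log 2 P) ≤ d := by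
        refine le_trans ?_ hPd
        exact_mod_cast h8
      have h10 := Real.log_le_log (by positivity) h9
      rw [Real.log_pow] at h10
      have h11 : (1 : ℝ) / 2 ≤ Real.log 2 := by
        have := Real.log_two_gt_d9
        linarith
      have h12 : (Nat.log 2 P : ℝ) * (1 / 2) ≤ (Nat.log 2 P : ℝ) * Real.log 2 :=
        mul_le_mul_of_nonneg_left h11 (Nat.cast_nonneg _)
      linarith
    have hlog0 : 0 ≤ Real.log d := Real.log_nonneg (by linarith)
    have h8 : √(3 * y) ≤ y := by
      rw [Real.sqrt_le_left (by linarith)]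
      nlinarith
    have h9 : 301 * √(P : ℝ) + 120 * (Nat.log 2 P : ℝ) * √(3 * y) ≤
        302 * √(d : ℝ) := by
      have h10 : √(P : ℝ) ≤ √(d : ℝ) := Real.sqrt_le_sqrt hPd
      have h11 : 120 * (Nat.log 2 P : ℝ) * √(3 * y) ≤
          120 * (2 * Real.log d) * y := by
        apply mul_le_mul _ h8 (Real.sqrt_nonneg _) (by positivity)
        linarith
      have h12 : 120 * (2 * Real.log d) * y ≤ 80 * y ^ 2 := by nlinarith
      have h13 : 0 ≤ y ^ 2 := sq_nonneg _
      linarith
    calc √(∑ v, k i v ^ 2 * ((mis H φ v).card : ℝ)) *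
          (301 * √(P : ℝ) + 120 * (Nat.log 2 P : ℝ) * √(3 * y))
        ≤ ε / 310 / √(d : ℝ) * (302 * √(d : ℝ)) := by
          apply mul_le_mul h6 h9 (by positivity) (by positivity)
      _ = ε * (302 / 310) := by field_simp
      _ ≤ ε := by linarith

end Pool.Agent.Work.MP_db9399_cg.helper59
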